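import Mathlib

/-!
Trees in Boolean algebras: a binary tree of increasing chains of elements such that any two branches
are bounded by elements whose meet is a member of both branches.

The argument is the one for the algebra of the subsets of `ℕ` modulo finite sets in the library file
`Pool.Graph.R_pool_sql_team_39128cda.H.MP_bcfe2b_lc.Tree`, for arbitrary Boolean algebras and
arbitrary heights.
-/

set_option autoImplicit false

universe u v

namespace Pool.Agent.KS6_83.PV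

open Set

/-- the first of the two parts used by the successor step -/
def i1 : Bool → Fin 4
  | false => 0
  | true => 1

/-- the second of the two parts used by the successor step -/
def i2 : Bool → Fin 4
  | false => 2
  | true => 3

/-- Interpolation in chains indexed by `ι`. -/
def Interp (B : Type u) [BooleanAlgebra B] (ι : Type v) [LinearOrder ι] : Prop :=
  ∀ P Q : ι → B, (∀ i, Q i ≠ ⊥) → (∀ i, Disjoint (P i) (Q i)) →
    (∀ i j, i < j → P i ≤ P j ∧ P j ≤ P i ⊔ Q i ∧ Q j ≤ Q i) →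
    ∃ a : B × B, a.2 ≠ ⊥ ∧ Disjoint a.1 a.2 ∧
      ∀ i, P i ≤ a.1 ∧ a.1 ≤ P i ⊔ Q i ∧ a.2 ≤ Q i

theorem tree {B : Type u} [BooleanAlgebra B] (W : Type v) [LinearOrder W] [WellFoundedLT W]
    (part : B → Fin 4 → B)
    (hp : ∀ b, b ≠ ⊥ → (∀ k, part b k ≤ b ∧ part b k ≠ ⊥) ∧
      ∀ k l, k ≠ l → Disjoint (part b k) (part b l))
    (hI : ∀ w : W, Interp B (Iio w)) :
    ∃ P : (W → Bool) → W → B,
      (∀ x i j, i ≤ j → P x i ≤ P x j) ∧
      (∀ x i j, i < j → ¬ P x j ≤ P x i) ∧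
      ∀ x y, x ≠ y → ∃ (A C D : B) (r : W), (∀ i, P x i ≤ C) ∧ (∀ i, P y i ≤ D) ∧
        C ⊓ D ≤ A ∧ A ≤ P x r ∧ A ≤ P y r ∧ ¬ P x r ≤ A := by
  classical
  let up : B × B → Bool → B × B := fun a b => (a.1 ⊔ part a.2 (i1 b), part a.2 (i2 b))
  let Good : ∀ {w : W}, (Iio w → B × B) → B × B → Prop := fun h a =>
    a.2 ≠ ⊥ ∧ Disjoint a.1 a.2 ∧ ∀ i, (h i).1 ≤ a.1 ∧ a.1 ≤ (h i).1 ⊔ (h i).2 ∧ a.2 ≤ (h i).2
  let F : (W → Bool) → W → B × B := fun x => (wellFounded_lt (α := W)).fix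
    fun w rec => @Classical.epsilon _ ⟨(⊥, ⊥)⟩ (Good fun i : Iio w => up (rec i i.2) (x i))
  have hF : ∀ x w, F x w =
      @Classical.epsilon _ ⟨(⊥, ⊥)⟩ (Good fun i : Iio w => up (F x i) (x i)) :=
    fun x w => WellFounded.fix_eq _ _ _
  have hup : ∀ (a : B × B) b, a.2 ≠ ⊥ → Disjoint a.1 a.2 →
      (up a b).2 ≠ ⊥ ∧ Disjoint (up a b).1 (up a b).2 ∧ a.1 ≤ (up a b).1 ∧
        (up a b).1 ≤ a.1 ⊔ a.2 ∧ (up a b).2 ≤ a.2 ∧ ¬ (up a b).1 ≤ a.1 := by
    intro a b h1 h2
    obtain ⟨h3, h4⟩ := hp a.2 h1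
    refine ⟨(h3 _).2, ?_, le_sup_left, sup_le_sup_left (h3 _).1 _, (h3 _).1, ?_⟩
    · refine Disjoint.sup_left (h2.mono_right (h3 _).1) (h4 _ _ ?_)
      cases b <;> decide
    · intro h5
      have h6 : part a.2 (i1 b) ≤ a.1 := le_sup_right.trans h5
      exact (h3 (i1 b)).2 (le_bot_iff.1 (h2 h6 (h3 _).1))
  have step : ∀ x (i j : W) (hij : i < j), Good (fun i : Iio j => up (F x i) (x i)) (F x j) →
      (up (F x i) (x i)).1 ≤ (up (F x j) (x j)).1 ∧
      (up (F x j) (x j)).1 ≤ (up (F x i) (x i)).1 ⊔ (up (F x i) (x i)).2 ∧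
      (up (F x j) (x j)).2 ≤ (up (F x i) (x i)).2 := by
    intro x i j hij ⟨g1, g2, g3⟩
    obtain ⟨-, -, u3, u4, u5, -⟩ := hup _ (x j) g1 g2
    obtain ⟨a1, a2, a3⟩ := g3 ⟨i, hij⟩
    exact ⟨a1.trans u3, u4.trans (sup_le a2 (a3.trans le_sup_right)), u5.trans a3⟩
  have spec : ∀ x w, Good (fun i : Iio w => up (F x i) (x i)) (F x w) := by
    intro x w
    induction w using WellFoundedLT.induction with
    | ind w ih =>
      rw [hF]
      refine @Classical.epsilon_spec _ _ ?_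
      exact hI w (fun i : Iio w => (up (F x i) (x i)).1) (fun i => (up (F x i) (x i)).2)
        (fun i => (hup _ _ (ih i i.2).1 (ih i i.2).2.1).1)
        (fun i => (hup _ _ (ih i i.2).1 (ih i i.2).2.1).2.1)
        (fun i j hij => step x i j hij (ih j j.2))
  have agree : ∀ x y w, (∀ i < w, x i = y i) → F x w = F y w := by
    intro x y w
    induction w using WellFoundedLT.induction with
    | ind w ih =>
      intro h
      rw [hF, hF]
      congr 2
      funext i
      rw [ih i i.2 fun k hk => h k (hk.trans i.2), h i i.2]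
  have mono : ∀ x i j, i ≤ j → (up (F x i) (x i)).1 ≤ (up (F x j) (x j)).1 := by
    intro x i j hij
    rcases hij.lt_or_eq with h | rfl
    · exact (step x i j h (spec x j)).1
    · exact le_rfl
  have bd : ∀ x r i, (up (F x i) (x i)).1 ≤ (up (F x r) (x r)).1 ⊔ (up (F x r) (x r)).2 := by
    intro x r i
    rcases le_or_gt i r with h | h
    · exact (mono x i r h).trans le_sup_left
    · exact (step x r i h (spec x i)).2.1
  refine ⟨fun x i => (up (F x i) (x i)).1, mono, fun x i j hij h => ?_, fun x y hxy => ?_⟩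
  · obtain ⟨g1, g2, g3⟩ := spec x j
    exact (hup _ (x j) g1 g2).2.2.2.2.2 (h.trans (g3 ⟨i, hij⟩).1)
  · obtain ⟨r, hr, hmin⟩ := (wellFounded_lt (α := W)).has_min {i | x i ≠ y i}
      (Function.ne_iff.mp hxy)
    have he : F x r = F y r := agree x y r fun i hi => by
      by_contra h
      exact hmin i h hi
    obtain ⟨g1, g2, -⟩ := spec x r
    refine ⟨(F x r).1, _, _, r, bd x r, bd y r, ?_, le_sup_left, he ▸ le_sup_left,
      (hup _ (x r) g1 g2).2.2.2.2.2⟩
    rw [← he]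
    have h4 := (hp _ g1).2
    have h5 : x r ≠ y r := hr
    have e : ∀ c, (up (F x r) c).1 ⊔ (up (F x r) c).2 =
        (F x r).1 ⊔ (part (F x r).2 (i1 c) ⊔ part (F x r).2 (i2 c)) := fun c => sup_assoc _ _ _
    rw [e, e, ← sup_inf_left]
    refine sup_le le_rfl ?_
    have h6 : Disjoint (part (F x r).2 (i1 (x r)) ⊔ part (F x r).2 (i2 (x r)))
        (part (F x r).2 (i1 (y r)) ⊔ part (F x r).2 (i2 (y r))) := by
      rw [disjoint_sup_left, disjoint_sup_right, disjoint_sup_right]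
      revert h5
      cases x r <;> cases y r <;> intro h5
      · exact absurd rfl h5
      · exact ⟨⟨h4 _ _ (by decide), h4 _ _ (by decide)⟩, h4 _ _ (by decide), h4 _ _ (by decide)⟩
      · exact ⟨⟨h4 _ _ (by decide), h4 _ _ (by decide)⟩, h4 _ _ (by decide), h4 _ _ (by decide)⟩
      · exact absurd rfl h5
    rw [h6.eq_bot]
    exact bot_le

end Pool.Agent.KS6_83.PV
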