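import Mathlib

/-!
Definitions: almost disjoint families on a space, saturated spaces, Parovichenko spaces, the space
of nonprincipal ultrafilters on `ℕ`.
-/

set_option autoImplicit false

universe u

namespace Pool.Agent.KS6_83.PV

open Set Cardinal TopologicalSpace

/-- An almost disjoint family on a space: regular open sets that are not compact, with compact
pairwise intersections. -/
def IsADFamily {X : Type u} [TopologicalSpace X] (𝒜 : Set (Set X)) : Prop :=
  (∀ U ∈ 𝒜, U = interior (closure U) ∧ ¬ IsCompact U) ∧
    ∀ U ∈ 𝒜, ∀ V ∈ 𝒜, U ≠ V → IsCompact (U ∩ V)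

/-- `X` is the Stone space of an atomless `κ`-saturated Boolean algebra: `X` is compact, Hausdorff,
totally disconnected, nonempty, without isolated points; if `P` and `R` are sets of fewer than `κ`
clopen sets and each member of `P` is contained in each member of `R`, then some clopen set lies
between; and a nonempty intersection of fewer than `κ` clopen sets has nonempty interior. -/
structure IsSaturated (κ : Cardinal.{u}) (X : Type u) [TopologicalSpace X] : Prop where
  compact : CompactSpace X
  t2 : T2Space X
  zeroDim : TotallyDisconnectedSpace X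
  nonempty : Nonempty X
  noIsolated : ∀ x : X, ¬ IsOpen ({x} : Set X)
  interpolation : ∀ P R : Set (Set X), #P < κ → #R < κ → (∀ A ∈ P, IsClopen A) →
    (∀ B ∈ R, IsClopen B) → (∀ A ∈ P, ∀ B ∈ R, A ⊆ B) →
    ∃ C, IsClopen C ∧ (∀ A ∈ P, A ⊆ C) ∧ ∀ B ∈ R, C ⊆ B
  interior : ∀ Q : Set (Set X), #Q < κ → (∀ A ∈ Q, IsClopen A) → (⋂₀ Q).Nonempty →
    (interior (⋂₀ Q)).Nonempty

/-- `X` is a Parovichenko space: compact, Hausdorff, totally disconnected, nonempty, without
isolated points, of weight at most the continuum, such that disjoint open `F_σ` sets have disjoint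
closures and nonempty `G_δ` sets have nonempty interior. -/
structure IsParovichenko (X : Type u) [TopologicalSpace X] : Prop where
  compact : CompactSpace X
  t2 : T2Space X
  zeroDim : TotallyDisconnectedSpace X
  nonempty : Nonempty X
  noIsolated : ∀ x : X, ¬ IsOpen ({x} : Set X)
  weight : ∃ ℬ : Set (Set X), IsTopologicalBasis ℬ ∧ #ℬ ≤ 𝔠
  fSpace : ∀ U V : Set X, IsOpen U → IsOpen V → IsGδ Uᶜ → IsGδ Vᶜ → Disjoint U V →
    Disjoint (closure U) (closure V)
  almostP : ∀ G : Set X, IsGδ G → G.Nonempty → (interior G).Nonempty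

/-- The space `ℕ*` of nonprincipal ultrafilters on `ℕ`, as a subspace of `Ultrafilter ℕ`. -/
abbrev NStar : Type := {p : Ultrafilter ℕ // (p : Filter ℕ) ≤ Filter.cofinite}

end Pool.Agent.KS6_83.PV
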