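import Pool.Agent.KS6_83.PV.A
import Pool.Agent.KS6_83.PV.D

/-!
Almost disjoint families of regular open sets on `κ`-saturated zero-dimensional compact spaces.
-/

set_option autoImplicit false

universe u

namespace Pool.Agent.KS6_83.PV

open Set Cardinal TopologicalSpace

theorem exists_part {B : Type u} [BooleanAlgebra B]
    (h : ∀ b : B, b ≠ ⊥ → ∃ c d : B, c ≠ ⊥ ∧ d ≠ ⊥ ∧ Disjoint c d ∧ c ≤ b ∧ d ≤ b) :
    ∃ part : B → Fin 4 → B, ∀ b, b ≠ ⊥ → (∀ k, part b k ≤ b ∧ part b k ≠ ⊥) ∧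
      ∀ k l, k ≠ l → Disjoint (part b k) (part b l) := by
  classical
  have : ∀ b : B, ∃ part : Fin 4 → B, b ≠ ⊥ → (∀ k, part k ≤ b ∧ part k ≠ ⊥) ∧
      ∀ k l, k ≠ l → Disjoint (part k) (part l) := by
    intro b
    by_cases hb : b = ⊥
    · exact ⟨fun _ => ⊥, fun h => absurd hb h⟩
    · obtain ⟨c, d, hc, hd, hcd, hcb, hdb⟩ := h b hb
      obtain ⟨c1, c2, k1, k2, k3, k4, k5⟩ := h c hc
      obtain ⟨d1, d2, l1, l2, l3, l4, l5⟩ := h d hd
      refine ⟨![c1, c2, d1, d2], fun _ => ⟨?_, ?_⟩⟩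
      · intro k
        fin_cases k
        · exact ⟨k4.trans hcb, k1⟩
        · exact ⟨k5.trans hcb, k2⟩
        · exact ⟨l4.trans hdb, l1⟩
        · exact ⟨l5.trans hdb, l2⟩
      · have m1 : Disjoint c1 d1 := hcd.mono k4 l4
        have m2 : Disjoint c1 d2 := hcd.mono k4 l5
        have m3 : Disjoint c2 d1 := hcd.mono k5 l4
        have m4 : Disjoint c2 d2 := hcd.mono k5 l5
        intro k l hkl
        fin_cases k <;> fin_cases l
        · exact absurd rfl hkl
        · exact k3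
        · exact m1
        · exact m2
        · exact k3.symm
        · exact absurd rfl hkl
        · exact m3
        · exact m4
        · exact m1.symm
        · exact m3.symm
        · exact absurd rfl hkl
        · exact l3
        · exact m2.symm
        · exact m4.symm
        · exact l3.symm
        · exact absurd rfl hkl
  choose part hpart using this
  exact ⟨part, hpart⟩

variable {X : Type u} [TopologicalSpace X]

theorem split [CompactSpace X] [T2Space X] [TotallyDisconnectedSpace X]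
    (hi : ∀ x : X, ¬ IsOpen ({x} : Set X)) (b : Clopens X) (hb : b ≠ ⊥) :
    ∃ c d : Clopens X, c ≠ ⊥ ∧ d ≠ ⊥ ∧ Disjoint c d ∧ c ≤ b ∧ d ≤ b := by
  have hb1 : (b : Set X).Nonempty := by
    by_contra h
    rw [not_nonempty_iff_eq_empty] at h
    exact hb (Clopens.ext h)
  obtain ⟨x, hx⟩ := hb1
  obtain ⟨y, hy, hxy⟩ : ∃ y ∈ (b : Set X), y ≠ x := by
    by_contra h
    push Not at h
    refine hi x ?_
    have : ({x} : Set X) = b := by
      ext y
      exact ⟨fun h1 => by rw [mem_singleton_iff.1 h1]; exact hx, fun h1 => h y h1⟩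
    rw [this]
    exact b.isOpen
  obtain ⟨V, hV, hxV, hVy⟩ := compact_exists_isClopen_in_isOpen
    (isOpen_compl_singleton (x := y)) (show x ∈ ({y} : Set X)ᶜ from fun h => hxy h.symm)
  let v : Clopens X := ⟨V, hV⟩
  refine ⟨b ⊓ v, b \ v, ?_, ?_, disjoint_inf_sdiff, inf_le_left, sdiff_le⟩
  · intro h
    have : x ∈ ((b ⊓ v : Clopens X) : Set X) := ⟨hx, hxV⟩
    rw [h] at this
    exact this
  · intro h
    have : y ∈ ((b \ v : Clopens X) : Set X) := ⟨hy, fun h1 => hVy h1 rfl⟩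
    rw [h] at this
    exact this

/-- a nonempty intersection of a chain contains a nonempty clopen set -/
theorem pseudo {κ : Cardinal.{u}} (hX : IsSaturated κ X) {ι : Type u} [LinearOrder ι]
    (hι : #ι < κ) (Q : ι → Clopens X) (hQ : ∀ i, Q i ≠ ⊥) (hd : ∀ i j, i < j → Q j ≤ Q i) :
    ∃ b : Clopens X, b ≠ ⊥ ∧ ∀ i, b ≤ Q i := by
  have := hX.compact
  have := hX.t2
  have := hX.zeroDim
  have hne : (⋂₀ (range fun i => (Q i : Set X))).Nonempty := by
    rw [sInter_range]
    rcases isEmpty_or_nonempty ι with h0 | h0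
    · rw [iInter_of_empty]
      exact @univ_nonempty _ hX.nonempty
    · refine IsCompact.nonempty_iInter_of_directed_nonempty_isCompact_isClosed _ ?_ ?_ ?_ ?_
      · intro i j
        rcases lt_trichotomy i j with h | rfl | h
        · exact ⟨j, hd i j h, subset_rfl⟩
        · exact ⟨i, subset_rfl, subset_rfl⟩
        · exact ⟨i, subset_rfl, hd j i h⟩
      · intro i
        by_contra h
        rw [not_nonempty_iff_eq_empty] at h
        exact hQ i (Clopens.ext h)
      · intro i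
        exact (Q i).isClosed.isCompact
      · intro i
        exact (Q i).isClosed
  obtain ⟨x, hx⟩ := hX.interior _ (lt_of_le_of_lt mk_range_le hι)
    (by rintro _ ⟨i, rfl⟩; exact (Q i).isClopen) hne
  obtain ⟨V, hV, hxV, hVs⟩ := compact_exists_isClopen_in_isOpen isOpen_interior hx
  refine ⟨⟨V, hV⟩, ?_, fun i => ?_⟩
  · intro h
    have : x ∈ ((⟨V, hV⟩ : Clopens X) : Set X) := hxV
    rw [h] at this
    exact this
  · exact (hVs.trans interior_subset).trans (sInter_subset_of_mem ⟨i, rfl⟩)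

theorem interp {κ : Cardinal.{u}} (hX : IsSaturated κ X) {ι : Type u} [LinearOrder ι]
    (hι : #ι < κ) : Interp (Clopens X) ι := by
  intro P Q hQ hd h
  have h' : ∀ i j, i ≤ j → P i ≤ P j ∧ P j ≤ P i ⊔ Q i ∧ Q j ≤ Q i := by
    intro i j hij
    rcases hij.lt_or_eq with h1 | rfl
    · exact h i j h1
    · exact ⟨le_rfl, le_sup_left, le_rfl⟩
  obtain ⟨b, hb, hb2⟩ := pseudo hX hι Q hQ fun i j hij => (h i j hij).2.2
  obtain ⟨C, hC, hC1, hC2⟩ := hX.interpolation (range fun i => (P i : Set X))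
    (range fun i => ((P i ⊔ Q i : Clopens X) : Set X)) (lt_of_le_of_lt mk_range_le hι)
    (lt_of_le_of_lt mk_range_le hι) (by rintro _ ⟨i, rfl⟩; exact (P i).isClopen)
    (by rintro _ ⟨i, rfl⟩; exact (P i ⊔ Q i).isClopen) (by
      rintro _ ⟨i, rfl⟩ _ ⟨j, rfl⟩
      rcases le_total i j with h1 | h1
      · exact (h' i j h1).1.trans le_sup_left
      · exact (h' j i h1).2.1)
  let c : Clopens X := ⟨C, hC⟩
  refine ⟨(c \ b, b), hb, disjoint_sdiff_self_left, fun i => ⟨?_, ?_, hb2 i⟩⟩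
  · have h1 : P i ≤ c := hC1 _ ⟨i, rfl⟩
    have h2 : Disjoint (P i) b := (hd i).mono_right (hb2 i)
    exact le_sdiff.2 ⟨h1, h2⟩
  · exact sdiff_le.trans (hC2 _ ⟨i, rfl⟩)

/-- the regular open set of a branch -/
def UU {W : Type u} (P : W → Clopens X) : Set X := interior (closure (⋃ i, (P i : Set X)))

theorem sub_UU {W : Type u} (P : W → Clopens X) (i : W) : (P i : Set X) ⊆ UU P :=
  (P i).isOpen.subset_interior_closure.trans
    (interior_mono (closure_mono (subset_iUnion (fun i => (P i : Set X)) i)))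

theorem UU_sub {W : Type u} (P : W → Clopens X) (C : Clopens X) (h : ∀ i, P i ≤ C) :
    UU P ⊆ C :=
  interior_subset.trans (closure_minimal (iUnion_subset fun i => h i) C.isClosed)

theorem family {κ : Cardinal.{u}} (hX : IsSaturated κ X) (W : Type u) [LinearOrder W]
    [WellFoundedLT W] (hW : ∀ w : W, #(Iio w) < κ) :
    ∃ P : (W → Bool) → W → Clopens X, (∀ x i j, i ≤ j → P x i ≤ P x j) ∧
      (∀ x i j, i < j → ¬ P x j ≤ P x i) ∧
      (Function.Injective fun x => UU (P x)) ∧ ∀ x y, x ≠ y → IsCompact (UU (P x) ∩ UU (P y)) := by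
  have := hX.compact
  have := hX.t2
  have := hX.zeroDim
  obtain ⟨part, hp⟩ := exists_part (split hX.noIsolated)
  obtain ⟨P, h1, h2, h3⟩ := tree W part hp fun w => interp hX (hW w)
  have key : ∀ x y, x ≠ y → ∃ (A : Clopens X) (r : W), UU (P x) ∩ UU (P y) = A ∧
      ¬ P x r ≤ A := by
    intro x y hxy
    obtain ⟨A, C, D, r, a1, a2, a3, a4, a5, a6⟩ := h3 x y hxy
    refine ⟨A, r, Subset.antisymm ?_ (subset_inter ?_ ?_), a6⟩
    · exact (inter_subset_inter (UU_sub _ _ a1) (UU_sub _ _ a2)).trans a3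
    · exact Subset.trans a4 (sub_UU _ r)
    · exact Subset.trans a5 (sub_UU _ r)
  refine ⟨P, h1, h2, fun x y h => ?_, fun x y hxy => ?_⟩
  · by_contra hxy
    obtain ⟨A, r, a1, a2⟩ := key x y hxy
    simp only at h
    rw [← h, inter_self] at a1
    exact a2 ((sub_UU _ r).trans a1.subset)
  · obtain ⟨A, r, a1, -⟩ := key x y hxy
    rw [a1]
    exact A.isClosed.isCompact

/-- short chains give sets which are not compact -/
theorem not_compact {κ : Cardinal.{u}} (hX : IsSaturated κ X) {W : Type u} [LinearOrder W]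
    [NoMaxOrder W] [Nonempty W] (hW : #W < κ) (P : W → Clopens X)
    (h1 : ∀ i j, i ≤ j → P i ≤ P j) (h2 : ∀ i j, i < j → ¬ P j ≤ P i) :
    ¬ IsCompact (UU P) := by
  have := hX.compact
  have := hX.t2
  intro h
  let C : Clopens X := ⟨UU P, h.isClosed, isOpen_interior⟩
  have hPC : ∀ i, P i ≤ C := fun i => sub_UU P i
  obtain ⟨b, hb, hb2⟩ := pseudo hX hW (fun i => C \ P i) (by
      intro i hi
      obtain ⟨j, hj⟩ := exists_gt i
      exact h2 i j hj ((hPC j).trans (sdiff_eq_bot_iff.1 hi)))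
    (fun i j hij => sdiff_le_sdiff_left (h1 i j hij.le))
  have hb1 : (b : Set X).Nonempty := by
    by_contra h
    rw [not_nonempty_iff_eq_empty] at h
    exact hb (Clopens.ext h)
  obtain ⟨x, hx⟩ := hb1
  obtain ⟨i0⟩ := ‹Nonempty W›
  have hxC : x ∈ UU P := ((hb2 i0).trans sdiff_le : b ≤ C) hx
  obtain ⟨y, hy1, hy2⟩ := mem_closure_iff.1 (interior_subset hxC) _ b.isOpen hx
  obtain ⟨k, hk⟩ := mem_iUnion.1 hy2
  exact ((hb2 k) hy1).2 hk

/-- **The general theorem.** -/
theorem main {κ : Cardinal.{u}} (hκ : ℵ₀ < κ) (hX : IsSaturated κ X)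
    (hc : #{A : Set X // IsClopen A} < 2 ^ κ ∨ ∃ μ < κ, (2 : Cardinal.{u}) ^ μ = 2 ^ κ) :
    ∃ 𝒜 : Set (Set X), IsADFamily 𝒜 ∧ #𝒜 = 2 ^ κ := by
  have reg : ∀ {W : Type u} (P : W → Clopens X), UU P = interior (closure (UU P)) :=
    fun P => interior_closure_idem.symm
  rcases hc with hc | ⟨μ, hμ, h⟩
  · obtain ⟨P, -, -, h3, h4⟩ := family hX κ.ord.ToType fun w => mk_Iio_toType_ord_lt w
    let S : Set (κ.ord.ToType → Bool) := {x | ¬ IsCompact (UU (P x))}
    have hc' : #(Sᶜ : Set _) ≤ #{A : Set X // IsClopen A} := by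
      have := hX.compact
      have := hX.t2
      have h5 : Function.Injective (fun x : (Sᶜ : Set _) =>
          (⟨UU (P x), (not_not.1 x.2 : IsCompact (UU (P x))).isClosed, isOpen_interior⟩ :
            {A : Set X // IsClopen A})) := fun x y hxy =>
        Subtype.ext (h3 (congrArg Subtype.val hxy))
      exact mk_le_of_injective h5
    have h2κ : #(κ.ord.ToType → Bool) = 2 ^ κ := by
      rw [mk_arrow]
      simp
    have ht : #S + #(Sᶜ : Set _) = 2 ^ κ := by
      rw [mk_sum_compl, h2κ]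
    have hS : #S = 2 ^ κ := by
      refine le_antisymm (ht ▸ self_le_add_right _ _) (not_lt.mp fun h5 => ?_)
      have h6 := add_lt_of_lt (hκ.le.trans (cantor κ).le) h5 (lt_of_le_of_lt hc' hc)
      exact h6.ne ht
    refine ⟨(fun x => UU (P x)) '' S, ⟨?_, ?_⟩, ?_⟩
    · rintro _ ⟨x, hx, rfl⟩
      exact ⟨reg _, hx⟩
    · rintro _ ⟨x, -, rfl⟩ _ ⟨y, -, rfl⟩ hne
      exact h4 x y fun h5 => hne (by rw [h5])
    · rw [mk_image_eq h3, hS]
  · have hμ0 : ℵ₀ ≤ μ := by
      by_contra h0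
      rw [not_le] at h0
      have h1 : (2 : Cardinal.{u}) ^ μ < ℵ₀ := power_lt_aleph0 (nat_lt_aleph0 2) h0
      rw [h] at h1
      exact absurd (hκ.le.trans (cantor κ).le) (not_le.2 h1)
    have := Cardinal.noMaxOrder hμ0
    have hWμ : #μ.ord.ToType = μ := by simp
    have : Nonempty μ.ord.ToType := by
      rw [← mk_ne_zero_iff, hWμ]
      exact (aleph0_pos.trans_le hμ0).ne'
    obtain ⟨P, h1, h2, h3, h4⟩ := family hX μ.ord.ToType
      fun w => (mk_Iio_toType_ord_lt w).trans hμ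
    refine ⟨range fun x => UU (P x), ⟨?_, ?_⟩, ?_⟩
    · rintro _ ⟨x, rfl⟩
      exact ⟨reg _, not_compact hX (by rw [hWμ]; exact hμ) _ (h1 x) (h2 x)⟩
    · rintro _ ⟨x, rfl⟩ _ ⟨y, rfl⟩ hne
      exact h4 x y fun h5 => hne (by rw [h5])
    · rw [mk_range_eq _ h3, ← h, mk_arrow]
      simp

end Pool.Agent.KS6_83.PV
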