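import Pool.Agent.KS6_83.PV.B

/-!
Parovichenko spaces are `ℵ₁`-saturated; the space `ℕ*` is a Parovichenko space.
-/

set_option autoImplicit false

universe u

namespace Pool.Agent.KS6_83.PV

open Set Cardinal TopologicalSpace Filter

variable {X : Type u} [TopologicalSpace X]

theorem card_clopens [CompactSpace X] {ℬ : Set (Set X)} (hb : IsTopologicalBasis ℬ)
    (hc : #ℬ ≤ 𝔠) : #{A : Set X // IsClopen A} ≤ 𝔠 := by
  classical
  have key : ∀ A : {A : Set X // IsClopen A}, ∃ t : Finset ℬ, A.1 = ⋃ b ∈ t, (b : Set X) := by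
    rintro ⟨A, hA⟩
    obtain ⟨t, ht⟩ := (hA.isClosed.isCompact).elim_finite_subcover
      (fun b : {b : ℬ // (b : Set X) ⊆ A} => (b.1 : Set X)) (fun b => hb.isOpen b.1.2) (by
        intro x hx
        obtain ⟨V, hV, h3, h4⟩ := hb.exists_subset_of_mem_open hx hA.isOpen
        exact mem_iUnion.2 ⟨⟨⟨V, hV⟩, h4⟩, h3⟩)
    refine ⟨t.image Subtype.val, Subset.antisymm (fun x hx => ?_) ?_⟩
    · obtain ⟨b, hbt, hxb⟩ := mem_iUnion₂.1 (ht hx)
      exact mem_iUnion₂.2 ⟨b.1, Finset.mem_image_of_mem _ hbt, hxb⟩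
    · refine iUnion₂_subset fun b hbt => ?_
      obtain ⟨c, -, rfl⟩ := Finset.mem_image.1 hbt
      exact c.2
  choose t ht using key
  have hinj : Function.Injective t := fun A B h => Subtype.ext (by rw [ht A, ht B, h])
  refine (mk_le_of_injective hinj).trans ?_
  rcases finite_or_infinite ℬ with h | h
  · exact (le_of_lt (lt_aleph0_of_finite _)).trans aleph0_le_continuum
  · rw [mk_finset_of_infinite]
    exact hc

theorem saturated (hX : IsParovichenko X) : IsSaturated ℵ₁ X := by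
  have := hX.compact
  have := hX.t2
  have := hX.zeroDim
  refine ⟨hX.compact, hX.t2, hX.zeroDim, hX.nonempty, hX.noIsolated, ?_, ?_⟩
  · intro P R hP hR hPc hRc hPR
    have hP' : P.Countable := (countable_iff_lt_aleph_one P).2 hP
    have hR' : R.Countable := (countable_iff_lt_aleph_one R).2 hR
    have hd := hX.fSpace (⋃₀ P) (⋂₀ R)ᶜ (isOpen_sUnion fun A hA => (hPc A hA).isOpen) (by
        rw [compl_sInter, sUnion_image]
        exact isOpen_biUnion fun B hB => (hRc B hB).compl.isOpen) (by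
        rw [compl_sUnion, sInter_image]
        exact IsGδ.biInter hP' fun A hA => (hPc A hA).compl.isOpen.isGδ) (by
        rw [compl_compl, sInter_eq_biInter]
        exact IsGδ.biInter hR' fun B hB => (hRc B hB).isOpen.isGδ) (by
        rw [disjoint_compl_right_iff_subset]
        exact sUnion_subset fun A hA => subset_sInter fun B hB => hPR A hA B hB)
    obtain ⟨C, hC, h1, h2⟩ := exists_clopen_of_closed_subset_open (Z := closure (⋃₀ P))
      (U := (closure (⋂₀ R)ᶜ)ᶜ) isClosed_closure isClosed_closure.isOpen_compl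
      (subset_compl_iff_disjoint_right.2 hd)
    refine ⟨C, hC, fun A hA => ?_, fun B hB => ?_⟩
    · exact (subset_sUnion_of_mem hA).trans (subset_closure.trans h1)
    · have h3 : C ⊆ ⋂₀ R := h2.trans (compl_subset_comm.1 subset_closure)
      exact h3.trans (sInter_subset_of_mem hB)
  · intro Q hQ hQc hne
    have hQ' : Q.Countable := (countable_iff_lt_aleph_one Q).2 hQ
    refine hX.almostP _ ?_ hne
    rw [sInter_eq_biInter]
    exact IsGδ.biInter hQ' fun B hB => (hQc B hB).isOpen.isGδ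

theorem parovichenko (hX : IsParovichenko X) :
    ∃ 𝒜 : Set (Set X), IsADFamily 𝒜 ∧ #𝒜 = 2 ^ (ℵ₁ : Cardinal.{u}) := by
  have := hX.compact
  obtain ⟨ℬ, hb, hc⟩ := hX.weight
  refine main aleph0_lt_aleph_one (saturated hX) ?_
  have h1 := card_clopens hb hc
  rcases (power_le_power_left two_ne_zero aleph0_lt_aleph_one.le :
    (2 : Cardinal.{u}) ^ ℵ₀ ≤ 2 ^ ℵ₁).lt_or_eq with h | h
  · left
    refine lt_of_le_of_lt h1 ?_
    rwa [two_power_aleph0] at h
  · exact Or.inr ⟨ℵ₀, aleph0_lt_aleph_one, h⟩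

/-! ### The space `ℕ*` -/

/-- almost inclusion -/
def AL (A B : Set ℕ) : Prop := ∀ᶠ n in cofinite, n ∈ A → n ∈ B

theorem seqPseudo (Q : ℕ → Set ℕ) (h : ∀ n, {m | ∀ k ≤ n, m ∈ Q k}.Infinite) :
    ∃ B : Set ℕ, B.Infinite ∧ ∀ k, AL B (Q k) := by
  choose x hx1 hx2 using fun n => (h n).exists_gt n
  refine ⟨range x, ?_, fun k => ?_⟩
  · refine Set.infinite_of_not_bddAbove ?_
    rintro ⟨b, hb⟩
    exact absurd (hb ⟨b, rfl⟩) (not_le.mpr (hx2 b))
  · refine Filter.mem_cofinite.mpr (((Set.finite_Iio k).image x).subset ?_)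
    intro m hm
    simp only [mem_compl_iff, mem_ofPred_eq, Classical.not_imp] at hm
    obtain ⟨⟨n, rfl⟩, h2⟩ := hm
    refine ⟨n, ?_, rfl⟩
    by_contra h3
    exact h2 (hx1 n k (not_lt.mp h3))

theorem separate (P R : ℕ → Set ℕ) (h : ∀ i j, AL (P i) (R j)) :
    ∃ A : Set ℕ, ∀ i, AL (P i) A ∧ AL A (R i) := by
  refine ⟨{m | ∃ n, m ∈ P n ∧ ∀ k ≤ n, m ∈ R k}, fun i => ⟨?_, ?_⟩⟩
  · have := (Filter.eventually_all_finite (Set.finite_Iic i)).mpr fun k _ => h i k
    filter_upwards [this] with m h1 h2 using ⟨i, h2, fun k hk => h1 k hk h2⟩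
  · have := (Filter.eventually_all_finite (Set.finite_Iic i)).mpr fun k _ => h k i
    filter_upwards [this] with m h1 ⟨n, h2, h3⟩
    rcases le_total n i with h4 | h4
    · exact h1 n h4 h2
    · exact h3 i h4

/-- the basic clopen sets of `ℕ*` -/
def N (y : Set ℕ) : Set NStar := {p | y ∈ p.1}

theorem N_open (y : Set ℕ) : IsOpen (N y) :=
  (ultrafilter_isOpen_basic y).preimage continuous_subtype_val

theorem N_closed (y : Set ℕ) : IsClosed (N y) :=
  (ultrafilter_isClosed_basic y).preimage continuous_subtype_val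

theorem compactSpace_NStar : CompactSpace NStar := by
  have : {p : Ultrafilter ℕ | (p : Filter ℕ) ≤ cofinite} =
      ⋂ s ∈ (cofinite : Filter ℕ), {p | s ∈ p} := by
    ext p
    simp only [mem_ofPred_eq, mem_iInter]
    exact Filter.le_def
  have h : IsClosed {p : Ultrafilter ℕ | (p : Filter ℕ) ≤ cofinite} := by
    rw [this]
    exact isClosed_biInter fun s _ => ultrafilter_isClosed_basic s
  exact isCompact_iff_compactSpace.mp h.isCompact

theorem N_mono {A B : Set ℕ} (h : AL A B) : N A ⊆ N B := fun p hp => by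
  have h1 : ∀ᶠ n in (p.1 : Filter ℕ), n ∈ A → n ∈ B := p.2 h
  exact Filter.mp_mem hp h1

theorem N_nonempty {A : Set ℕ} (h : A.Infinite) : (N A).Nonempty := by
  have h1 : (cofinite ⊓ 𝓟 A).NeBot :=
    Filter.frequently_mem_iff_neBot.mp (Set.infinite_iff_frequently_cofinite.mp h)
  exact ⟨⟨Ultrafilter.of (cofinite ⊓ 𝓟 A), (Ultrafilter.of_le _).trans inf_le_left⟩,
    Filter.le_principal_iff.mp ((Ultrafilter.of_le _).trans inf_le_right)⟩

theorem infinite_of_mem {A : Set ℕ} {p : NStar} (h : p ∈ N A) : A.Infinite := by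
  intro hA
  have h1 : Aᶜ ∈ (p.1 : Filter ℕ) := p.2 hA.compl_mem_cofinite
  exact (Ultrafilter.compl_mem_iff_notMem.1 h1) h

theorem N_basis : IsTopologicalBasis (range N) := by
  have h := (ultrafilterBasis_is_basis (α := ℕ)).induced
    (Subtype.val : NStar → Ultrafilter ℕ)
  have h2 : range N = preimage (Subtype.val : NStar → Ultrafilter ℕ) '' ultrafilterBasis ℕ := by
    ext s
    constructor
    · rintro ⟨y, rfl⟩
      exact ⟨{u | y ∈ u}, ⟨y, rfl⟩, rfl⟩
    · rintro ⟨_, ⟨y, rfl⟩, rfl⟩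
      exact ⟨y, rfl⟩
  rw [h2]
  exact h

theorem closed_sub_open {K U : Set NStar} (hK : IsClosed K) (hU : IsOpen U) (h : K ⊆ U) :
    ∃ y, K ⊆ N y ∧ N y ⊆ U := by
  have := compactSpace_NStar
  obtain ⟨t, ht⟩ := hK.isCompact.elim_finite_subcover (fun y : {y // N y ⊆ U} => N y.1)
    (fun y => N_open _) (fun p hp => by
      obtain ⟨_, ⟨y, rfl⟩, h3, h4⟩ := N_basis.exists_subset_of_mem_open (h hp) hU
      exact mem_iUnion.mpr ⟨⟨y, h4⟩, h3⟩)
  refine ⟨⋃ y ∈ (t : Set {y // N y ⊆ U}), y.1, fun p hp => ?_, fun p hp => ?_⟩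
  · obtain ⟨y, hy, h3⟩ := mem_iUnion₂.mp (ht hp)
    exact (Ultrafilter.finite_biUnion_mem_iff t.finite_toSet).mpr ⟨y, hy, h3⟩
  · obtain ⟨y, -, h3⟩ := (Ultrafilter.finite_biUnion_mem_iff t.finite_toSet).mp hp
    exact y.2 h3

/-- an open `F_σ` set is a countable union of basic sets -/
theorem open_Fsigma {U : Set NStar} (hU : IsOpen U) (hG : IsGδ Uᶜ) :
    ∃ y : ℕ → Set ℕ, U = ⋃ n, N (y n) := by
  obtain ⟨f, hf, hf2⟩ := isGδ_iff_eq_iInter_nat.1 hG
  have h1 : ∀ n, ∃ y, (f n)ᶜ ⊆ N y ∧ N y ⊆ U := by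
    intro n
    refine closed_sub_open (hf n).isClosed_compl hU ?_
    rw [compl_subset_comm, hf2]
    exact iInter_subset _ n
  choose y hy1 hy2 using h1
  refine ⟨y, Subset.antisymm ?_ (iUnion_subset hy2)⟩
  intro p hp
  have h2 : p ∉ ⋂ n, f n := by
    rw [← hf2]
    exact fun h => h hp
  rw [mem_iInter] at h2
  push Not at h2
  obtain ⟨n, hn⟩ := h2
  exact mem_iUnion.2 ⟨n, hy1 n hn⟩

theorem isParovichenko_NStar : IsParovichenko NStar := by
  refine ⟨compactSpace_NStar, inferInstance, inferInstance, ?_, ?_, ⟨range N, N_basis, ?_⟩, ?_, ?_⟩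
  · obtain ⟨p, -⟩ := N_nonempty (infinite_univ (α := ℕ))
    exact ⟨p⟩
  · intro p hp
    obtain ⟨_, ⟨y, rfl⟩, h3, h4⟩ := N_basis.exists_subset_of_mem_open (mem_singleton p) hp
    have hy := infinite_of_mem h3
    have hi : Function.Injective fun n => (hy.natEmbedding y n : ℕ) :=
      Subtype.val_injective.comp (hy.natEmbedding y).injective
    let C : Bool → Set ℕ := fun b => range fun n => (hy.natEmbedding y (2 * n + b.toNat) : ℕ)
    have hC : ∀ b, (C b).Infinite := fun b => by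
      refine Set.infinite_range_of_injective fun a c hac => ?_
      have := hi hac
      simpa using this
    have hCy : ∀ b, C b ⊆ y := by
      rintro b _ ⟨n, rfl⟩
      exact (hy.natEmbedding y _).2
    have hp' : ∀ b, p ∈ N (C b) := by
      intro b
      obtain ⟨q, hq⟩ := N_nonempty (hC b)
      have h5 : q ∈ N y := N_mono (Eventually.of_forall fun n hn => hCy b hn) hq
      have h6 : q = p := h4 h5
      rwa [h6] at hq
    have h7 : C false ∩ C true ∈ p.1 := Filter.inter_mem (hp' false) (hp' true)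
    have h8 : C false ∩ C true = ∅ := by
      rw [eq_empty_iff_forall_notMem]
      rintro _ ⟨⟨n, rfl⟩, ⟨m, hm⟩⟩
      have := hi hm
      simp at this
      omega
    rw [h8] at h7
    exact Ultrafilter.empty_notMem h7
  · refine mk_range_le.trans ?_
    simp
  · intro U V hU hV hU2 hV2 hd
    obtain ⟨y, hy⟩ := open_Fsigma hU hU2
    obtain ⟨z, hz⟩ := open_Fsigma hV hV2
    obtain ⟨A, hA⟩ := separate y (fun n => (z n)ᶜ) (by
      intro i j
      by_contra h
      have h4 : (y i ∩ z j).Infinite := Set.infinite_iff_frequently_cofinite.mpr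
        ((Filter.not_eventually.mp h).mono fun n hn => by
          rw [Classical.not_imp, mem_compl_iff, not_not] at hn
          exact hn)
      obtain ⟨p, hp⟩ := N_nonempty h4
      have h5 : p ∈ U := by
        rw [hy]
        exact mem_iUnion.2 ⟨i, N_mono (Eventually.of_forall fun n hn => hn.1) hp⟩
      have h6 : p ∈ V := by
        rw [hz]
        exact mem_iUnion.2 ⟨j, N_mono (Eventually.of_forall fun n hn => hn.2) hp⟩
      exact Set.disjoint_left.1 hd h5 h6)
    have h1 : closure U ⊆ N A := by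
      refine closure_minimal ?_ (N_closed A)
      rw [hy]
      exact iUnion_subset fun i => N_mono (hA i).1
    have h2 : closure V ⊆ N Aᶜ := by
      refine closure_minimal ?_ (N_closed _)
      rw [hz]
      refine iUnion_subset fun i => N_mono ?_
      filter_upwards [(hA i).2] with n hn h3 h4
      exact hn h4 h3
    rw [Set.disjoint_left]
    intro p hp hq
    exact (Ultrafilter.compl_mem_iff_notMem.1 (h2 hq)) (h1 hp)
  · intro G hG hne
    obtain ⟨f, hf, rfl⟩ := isGδ_iff_eq_iInter_nat.1 hG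
    obtain ⟨p, hp⟩ := hne
    rw [mem_iInter] at hp
    have h1 : ∀ n, ∃ y, p ∈ N y ∧ N y ⊆ f n := by
      intro n
      obtain ⟨_, ⟨y, rfl⟩, h3, h4⟩ := N_basis.exists_subset_of_mem_open (hp n) (hf n)
      exact ⟨y, h3, h4⟩
    choose y hy1 hy2 using h1
    obtain ⟨B, hB, hB2⟩ := seqPseudo y (by
      intro n
      have h2 : {m | ∀ k ≤ n, m ∈ y k} ∈ (p.1 : Filter ℕ) :=
        (Filter.eventually_all_finite (Set.finite_Iic n)).mpr fun k _ => hy1 k
      exact infinite_of_mem (p := p) h2)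
    refine Set.Nonempty.mono ?_ (N_nonempty hB)
    refine interior_maximal ?_ (N_open B)
    exact subset_iInter fun n => (N_mono (hB2 n)).trans (hy2 n)

end Pool.Agent.KS6_83.PV
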