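import Pool.Agent.KS6_83.PV.C

/-!
The value of the weak power `2 ^< κ`.
-/

set_option autoImplicit false

universe u

namespace Pool.Agent.KS6_83.PV

open Set Cardinal TopologicalSpace Filter

theorem exists_mu {κ : Cardinal.{u}} (hκ : ℵ₀ ≤ κ) (h : (2 : Cardinal.{u}) ^< κ = 2 ^ κ) :
    ∃ μ < κ, (2 : Cardinal.{u}) ^ μ = 2 ^ κ := by
  by_contra hn
  push Not at hn
  have hmk : ∀ i : κ.ord.ToType, #(Iio i) < κ := fun i => mk_Iio_toType_ord_lt i
  have h1 : ∀ i : κ.ord.ToType, (2 : Cardinal.{u}) ^ #(Iio i) < 2 ^ κ := fun i =>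
    lt_of_le_of_ne (power_le_power_left two_ne_zero (hmk i).le) (hn _ (hmk i))
  have h2 : ⨆ i : κ.ord.ToType, (2 : Cardinal.{u}) ^ #(Iio i) < 2 ^ κ :=
    iSup_lt_of_lt_cof_ord (by simpa using lt_cof_ord_power hκ one_lt_two) h1
  refine absurd h (ne_of_lt (lt_of_le_of_lt (powerlt_le.2 fun μ hμ => ?_) h2))
  obtain ⟨i, hi⟩ : ∃ i : κ.ord.ToType, #(Iio i) = μ := by
    obtain ⟨i, hi⟩ := Ordinal.typein_surj (α := κ.ord.ToType) (· < ·)
      (o := μ.ord) (by simpa using hμ)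
    refine ⟨i, ?_⟩
    have h3 := congrArg Ordinal.card hi
    rw [card_ord] at h3
    rw [← h3, ← Ordinal.type_Iio_lt]
    rfl
  rw [← hi]
  exact le_ciSup (f := fun i : κ.ord.ToType => (2 : Cardinal.{u}) ^ #(Iio i))
    (bddAbove_range _) i

variable {X : Type u} [TopologicalSpace X]

/-- The general theorem with a weight condition that is met by the saturated spaces of least
weight. -/
theorem main' {κ : Cardinal.{u}} (hκ : ℵ₀ < κ) (hX : IsSaturated κ X)
    (hc : #{A : Set X // IsClopen A} < 2 ^ κ ∨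
      #{A : Set X // IsClopen A} ≤ (2 : Cardinal.{u}) ^< κ ∨
      ∃ μ < κ, (2 : Cardinal.{u}) ^ μ = 2 ^ κ) :
    ∃ 𝒜 : Set (Set X), IsADFamily 𝒜 ∧ #𝒜 = 2 ^ κ := by
  refine main hκ hX ?_
  rcases hc with hc | hc | hc
  · exact Or.inl hc
  · have h : (2 : Cardinal.{u}) ^< κ ≤ 2 ^ κ :=
      powerlt_le.2 fun μ hμ => power_le_power_left two_ne_zero hμ.le
    rcases h.lt_or_eq with h | h
    · exact Or.inl (hc.trans_lt h)
    · exact Or.inr (exists_mu hκ.le h)
  · exact Or.inr hc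

end Pool.Agent.KS6_83.PV
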